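import Mathlib

set_option autoImplicit false

/-! MP_94ed3e_ag: a multigraded Hilbert scheme which is a fat point. -/

open MvPolynomial

universe u

namespace Pool.Agent.MH

/-- the degree `a` piece of `R[x₁,…,xₙ]/I`, where `xᵢ` has degree `w i` -/
abbrev Piece {n : ℕ} {A : Type} [AddCommGroup A] (w : Fin n → A) (R : Type u) [CommRing R]
    (I : Ideal (MvPolynomial (Fin n) R)) (a : A) : Type u :=
  (weightedHomogeneousSubmodule R w a) ⧸
    (Submodule.comap (weightedHomogeneousSubmodule R w a).subtype (I.restrictScalars R))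

/-- `I` is an `R`-point of the multigraded Hilbert scheme: `I` is homogeneous and each graded piece
of `R[x₁,…,xₙ]/I` is locally free of rank `h a` -/
structure IsHilb {n : ℕ} {A : Type} [AddCommGroup A] (w : Fin n → A) (h : A → ℕ) (R : Type u)
    [CommRing R] (I : Ideal (MvPolynomial (Fin n) R)) : Prop where
  homogeneous : ∀ f ∈ I, ∀ a, weightedHomogeneousComponent w a f ∈ I
  finite : ∀ a, Module.Finite R (Piece w R I a)
  projective : ∀ a, Module.Projective R (Piece w R I a)
  rank : ∀ a (p : PrimeSpectrum R), Module.rankAtStalk (R := R) (Piece w R I a) p = h a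

/-- the grading of `k[x,y,z]` by `ℤ²`: `deg x = (1,0)`, `deg y = (0,1)`, `deg z = (1,1)` -/
def w3 : Fin 3 → ℤ × ℤ := ![(1, 0), (0, 1), (1, 1)]

/-- the Hilbert function -/
def h3 (a : ℤ × ℤ) : ℕ :=
  if a = (1, 1) then 2 else
  if a = (0, 0) ∨ a = (0, 1) ∨ a = (0, 2) ∨ a = (0, 3) ∨ a = (1, 0) ∨ a = (2, 1) ∨ a = (1, 2) ∨
    a = (1, 3) ∨ a = (2, 2) ∨ a = (2, 3) then 1 else 0

/-- the exponent vector of `x^a y^b z^c` -/
noncomputable def mon (a b c : ℕ) : Fin 3 →₀ ℕ :=
  Finsupp.single 0 a + Finsupp.single 1 b + Finsupp.single 2 c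

/-- the linear conditions that define the ideal with parameter `c` -/
structure Cond {R : Type u} [CommRing R] (c : R) (f : MvPolynomial (Fin 3) R) : Prop where
  c000 : coeff (mon 0 0 0) f = 0
  c010 : coeff (mon 0 1 0) f = 0
  c020 : coeff (mon 0 2 0) f = 0
  c030 : coeff (mon 0 3 0) f = 0
  c100 : coeff (mon 1 0 0) f = 0
  c001 : coeff (mon 0 0 1) f = 0
  c110 : coeff (mon 1 1 0) f = 0
  c101 : coeff (mon 1 0 1) f = 0
  c011 : coeff (mon 0 1 1) f = c * coeff (mon 1 2 0) f
  c021 : coeff (mon 0 2 1) f = c * coeff (mon 1 3 0) f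
  c002 : coeff (mon 0 0 2) f = c * coeff (mon 1 1 1) f
  c012 : coeff (mon 0 1 2) f = c * coeff (mon 1 2 1) f

end Pool.Agent.MH
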